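import Pool.Agent.Q167.TR.Defs
import Pool.Agent.Q167.TR.Rkhs

set_option autoImplicit false

open MeasureTheory Pool.Agent.Q167.TR
open scoped NNReal

namespace Pool.Agent.Results.MP_efe325_an.Equivalence

/-- For every positive measure on the dyadic tree (all subsets measurable) the conditions (a') and (b) are
equivalent; if (a') holds with constant `C`, then (b) holds with constant `4 C`, and if (b) holds with constant `C`,
then so does (a'). -/
theorem result [MeasurableSpace T] [DiscreteMeasurableSpace T] (μ : Measure T) :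
    ((∃ C : ℝ≥0, CondA μ C) ↔ ∃ C : ℝ≥0, CondB μ C) ∧
      ∀ C : ℝ≥0, (CondA μ C → CondB μ (4 * C)) ∧ (CondB μ C → CondA μ C) :=
  ⟨⟨fun ⟨C, hC⟩ => ⟨4 * C, a_to_b μ C hC⟩, fun ⟨C, hC⟩ => ⟨C, b_to_a μ C hC⟩⟩,
    fun C => ⟨a_to_b μ C, b_to_a μ C⟩⟩

end Pool.Agent.Results.MP_efe325_an.Equivalence
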